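import Pool.Agent.RHO.Stmts3

/-!
# MP_ca8ef3_an, table ca0, row BDT (helper10): the boundary test
-/

set_option autoImplicit false

namespace Pool.Agent.RHO.H10c

open Finset Pool.Agent.RHO

section

variable {ι : Type} [Fintype ι] [DecidableEq ι]

theorem pr_add_left (a b f : Fn ι) : pr (a + b) f = pr a f + pr b f := by
  simp only [pr, Pi.add_apply, add_mul, Finset.sum_add_distrib]

/-- the indicator function of at most one point -/
def dO (w : Option (Pt ι)) : Fn ι := fun z => if w = some z then 1 else 0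

/-- the value of a function at at most one point -/
def vO (w : Option (Pt ι)) (f : Fn ι) : ZMod 2 := w.elim 0 f

theorem pr_dO (w : Option (Pt ι)) (f : Fn ι) : pr (dO w) f = vO w f := by
  cases w with
  | none => simp [pr, dO, vO]
  | some p =>
    unfold pr dO vO
    rw [Finset.sum_eq_single p]
    · rw [if_pos rfl, one_mul]
      rfl
    · intro z _ hz
      rw [if_neg, zero_mul]
      intro h
      exact hz (Option.some_injective _ h).symm
    · intro h
      exact absurd (Finset.mem_univ _) h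

/-- the sum of the indicator functions of the points `P e` -/
def sm {κ : Type} (Z : Finset κ) (P : κ → Pt ι) : Fn ι :=
  fun z => ∑ e ∈ Z, if P e = z then 1 else 0

theorem pr_sm {κ : Type} (Z : Finset κ) (P : κ → Pt ι) (f : Fn ι) :
    pr (sm Z P) f = ∑ e ∈ Z, f (P e) := by
  unfold pr sm
  simp_rw [Finset.sum_mul]
  rw [Finset.sum_comm]
  refine Finset.sum_congr rfl fun e _ => ?_
  rw [Finset.sum_eq_single (P e)]
  · rw [if_pos rfl, one_mul]
  · intro z _ hz
    rw [if_neg (Ne.symm hz), zero_mul]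
  · intro h
    exact absurd (Finset.mem_univ _) h

theorem two_zero (a : ZMod 2) : a + a = 0 := CharTwo.add_self_eq_zero a

theorem test (hD : DUAStmt) {κ : Type} (d : ℕ) (Z : Finset κ) (P : κ → Pt ι)
    (u v : Option (Pt ι)) (hZ : Z.card + 2 < 2 ^ (d + 1))
    (h : ∀ f ∈ RM ι d, ∑ e ∈ Z, f (P e) = vO u f + vO v f) (z : Pt ι) :
    (∑ e ∈ Z, if P e = z then (1 : ZMod 2) else 0) = dO u z + dO v z := by
  classical
  set τ : Fn ι := sm Z P + (dO u + dO v) with hτ
  have hv : Van τ d := by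
    intro f hf
    rw [hτ, pr_add_left, pr_add_left, pr_sm, pr_dO, pr_dO, h f hf]
    exact two_zero _
  have h0 : τ = 0 := by
    by_contra hne
    have h1 := hD ι d τ hv hne
    have h2 : (univ.filter fun z => τ z ≠ 0) ⊆
        Z.image P ∪ (u.toFinset ∪ v.toFinset) := by
      intro y hy
      rw [Finset.mem_filter] at hy
      by_contra hcon
      simp only [Finset.mem_union, Finset.mem_image, Option.mem_toFinset, Option.mem_def,
        not_or, not_exists, not_and] at hcon
      obtain ⟨h3, h4, h5⟩ := hcon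
      apply hy.2
      rw [hτ]
      show (∑ e ∈ Z, if P e = y then (1 : ZMod 2) else 0) + (dO u y + dO v y) = 0
      have e1 : (∑ e ∈ Z, if P e = y then (1 : ZMod 2) else 0) = 0 :=
        Finset.sum_eq_zero fun e he => if_neg (h3 e he)
      have e2 : dO u y = 0 := if_neg h4
      have e3 : dO v y = 0 := if_neg h5
      rw [e1, e2, e3]
      rfl
    have h3 := Finset.card_le_card h2
    have h4 : ∀ w : Option (Pt ι), w.toFinset.card ≤ 1 := by
      intro w
      cases w <;> simp
    have h5 := Finset.card_union_le (Z.image P) (u.toFinset ∪ v.toFinset)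
    have h6 := Finset.card_union_le u.toFinset v.toFinset
    have h7 : (Z.image P).card ≤ Z.card := Finset.card_image_le
    have h8 := h4 u
    have h9 := h4 v
    omega
  have h1 := congrFun h0 z
  rw [hτ] at h1
  have h2 : (∑ e ∈ Z, if P e = z then (1 : ZMod 2) else 0) + (dO u z + dO v z) = 0 := h1
  exact CharTwo.add_eq_zero.1 h2

theorem pr_rp_sum (hQ : QDFStmt) (d : ℕ) {κ : Type} (Z : Finset κ) (P : κ → Pt ι) (f : Fn ι)
    (hf : f ∈ RM ι d) : pr (rp (∑ e ∈ Z, ev d (P e))) f = ∑ e ∈ Z, f (P e) := by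
  classical
  obtain ⟨hadd, hev, -, -, -, -, -⟩ := hQ ι d
  have hz : pr (rp (0 : Qd ι d)) f = 0 := by
    have h1 := hadd 0 0 f hf
    rw [add_zero] at h1
    rw [h1]
    exact two_zero _
  induction Z using Finset.induction_on with
  | empty =>
    rw [Finset.sum_empty, Finset.sum_empty]
    exact hz
  | insert a Z ha ih =>
    rw [Finset.sum_insert ha, Finset.sum_insert ha, hadd _ _ f hf, hev _ f hf, ih]

theorem sum_chn (hQ : QDFStmt) {D : ℕ} (d : ℕ) (Z : Finset (Pt ι × Fin D)) (F : Fin D → Fn ι)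
    (hF : ∀ i, F i ∈ RM ι d) :
    ∑ i, pr (rp (chn d Z i)) (F i) = ∑ e ∈ Z, F e.2 e.1 := by
  classical
  have h1 : ∀ i : Fin D, pr (rp (chn d Z i)) (F i) =
      ∑ e ∈ Z.filter (fun e => e.2 = i), F e.2 e.1 := by
    intro i
    unfold chn
    rw [pr_rp_sum hQ d _ (fun e : Pt ι × Fin D => e.1) (F i) (hF i)]
    refine Finset.sum_congr rfl fun e he => ?_
    rw [(Finset.mem_filter.1 he).2]
  rw [Finset.sum_congr rfl fun i _ => h1 i]
  exact Finset.sum_fiberwise Z (fun e => e.2) (fun e => F e.2 e.1)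

end

theorem bdt (hC : RMCStmt) (hD : DUAStmt) (hQ : QDFStmt) : BDTStmt := by
  intro ι _ _ D d s x y Z hs hx hy hxy hZ v
  classical
  have hcomp : ∀ (i : Fin D) (f : Fn ι), f ∈ RM ι d → (fun z => f (s i z)) ∈ RM ι d :=
    fun i f hf => hC ι (s i) (hs i) d f hf
  have hadd := (hQ ι d).1
  have hsum : ∀ F : Fin D → Fn ι, (∀ i, F i ∈ RM ι d) →
      ∑ e ∈ Z, F e.2 e.1 = ∑ i, pr (rp (x.2 i)) (F i) + ∑ i, pr (rp (y.2 i)) (F i) := by
    intro F hF
    rw [← sum_chn hQ d Z F hF, ← Finset.sum_add_distrib]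
    refine Finset.sum_congr rfl fun i _ => ?_
    rw [← hadd _ _ _ (hF i), ← hxy]
    rfl
  have hP : ∀ f ∈ RM ι d, ∑ e ∈ Z, f e.1 = vP x.1 f + vP y.1 f := by
    intro f hf
    rw [hsum (fun _ => f) (fun _ => hf), (hx f hf).1, (hy f hf).1]
    have h1 : f 0 + vP x.1 f + (f 0 + vP y.1 f) = (f 0 + f 0) + (vP x.1 f + vP y.1 f) := by ring
    rw [h1, two_zero, zero_add]
  have hL : ∀ f ∈ RM ι d, ∑ e ∈ Z, f (s e.2 e.1) = vL x.1 f + vL y.1 f := by
    intro f hf
    rw [hsum (fun i z => f (s i z)) (fun i => hcomp i f hf), (hx f hf).2, (hy f hf).2]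
  have hvP : ∀ (w : Pt ι ⊕ Pt ι) (f : Fn ι), vP w f = vO w.getLeft? f := by
    rintro (w | w) f <;> rfl
  have hvL : ∀ (w : Pt ι ⊕ Pt ι) (f : Fn ι), vL w f = vO w.getRight? f := by
    rintro (w | w) f <;> rfl
  have hdl : ∀ (w : Pt ι ⊕ Pt ι) (p : Pt ι), dO w.getLeft? p =
      if (Sum.inl p : Pt ι ⊕ Pt ι) = w then 1 else 0 := by
    rintro (w | w) p
    · unfold dO
      simp only [Sum.getLeft?_inl, Option.some.injEq, Sum.inl.injEq]
      simp only [eq_comm]
    · simp [dO]
  have hdr : ∀ (w : Pt ι ⊕ Pt ι) (p : Pt ι), dO w.getRight? p =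
      if (Sum.inr p : Pt ι ⊕ Pt ι) = w then 1 else 0 := by
    rintro (w | w) p
    · simp [dO]
    · unfold dO
      simp only [Sum.getRight?_inr, Option.some.injEq, Sum.inr.injEq]
      simp only [eq_comm]
  rcases v with p | p
  · have h1 := test hD d Z (fun e : Pt ι × Fin D => e.1) x.1.getLeft? y.1.getLeft? hZ
      (fun f hf => by rw [← hvP, ← hvP]; exact hP f hf) p
    rw [hdl, hdl] at h1
    rw [← h1]
    unfold bdr
    refine Finset.sum_congr rfl fun e _ => ?_
    have e1 : (eb s e = (Sum.inl p : Pt ι ⊕ Pt ι)) ↔ False := by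
      unfold eb
      simp
    have e2 : (ea e = (Sum.inl p : Pt ι ⊕ Pt ι)) ↔ e.1 = p := by
      unfold ea
      simp
    simp only [e1, e2, if_false, add_zero]
  · have h1 := test hD d Z (fun e : Pt ι × Fin D => s e.2 e.1) x.1.getRight? y.1.getRight? hZ
      (fun f hf => by rw [← hvL, ← hvL]; exact hL f hf) p
    rw [hdr, hdr] at h1
    rw [← h1]
    unfold bdr
    refine Finset.sum_congr rfl fun e _ => ?_
    have e1 : (ea e = (Sum.inr p : Pt ι ⊕ Pt ι)) ↔ False := by
      unfold ea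
      simp
    have e2 : (eb s e = (Sum.inr p : Pt ι ⊕ Pt ι)) ↔ s e.2 e.1 = p := by
      unfold eb
      simp
    simp only [e1, e2, if_false, zero_add]

end Pool.Agent.RHO.H10c
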