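import Pool.Agent.RHO.Stmts3

/-!
# MP_ca8ef3_an, table ca0, row PVE (helper10): exact value for few points
-/

set_option autoImplicit false

namespace Pool.Agent.RHO.H10c

open Finset Pool.Agent.RHO

/-- all fibres of a surjective homomorphism have the same size -/
theorem card_preimage {G H : Type} [AddCommGroup G] [AddCommGroup H] [Fintype G] [Fintype H]
    (φ : G →+ H) (hφ : Function.Surjective φ) (P : H → Prop) [DecidablePred P]
    [DecidableEq H] :
    (univ.filter fun g => P (φ g)).card * Fintype.card H =
      (univ.filter fun h => P h).card * Fintype.card G := by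
  classical
  set c := (univ.filter fun g => φ g = 0).card with hc
  have hfib : ∀ h : H, (univ.filter fun g => φ g = h).card = c := by
    intro h
    exact AddMonoidHom.card_fiber_eq_of_mem_range φ (hφ h) (hφ 0)
  have h1 : Fintype.card G = Fintype.card H * c := by
    rw [← Finset.card_univ, Finset.card_eq_sum_card_fiberwise (f := φ) (t := univ)
      (fun _ _ => Finset.mem_coe.2 (Finset.mem_univ _)), Finset.sum_congr rfl fun h _ => hfib h,
      Finset.sum_const, smul_eq_mul, Finset.card_univ]
  have h2 : (univ.filter fun g => P (φ g)).card = (univ.filter fun h => P h).card * c := by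
    rw [Finset.card_eq_sum_card_fiberwise (f := φ) (t := univ.filter fun h => P h)]
    · have h3 : ∀ h ∈ univ.filter (fun h => P h),
          ((univ.filter fun g => P (φ g)).filter fun g => φ g = h).card = c := by
        intro h hh
        rw [← hfib h]
        congr 1
        ext g
        simp only [Finset.mem_filter, Finset.mem_univ, true_and] at hh ⊢
        constructor
        · exact fun h4 => h4.2
        · intro h4
          exact ⟨h4 ▸ hh, h4⟩
      rw [Finset.sum_congr rfl h3, Finset.sum_const, smul_eq_mul]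
    · intro g hg
      simp only [Finset.coe_filter, Finset.mem_univ, true_and, Set.mem_ofPred_eq] at hg ⊢
      exact hg
  rw [h1, h2]
  ring

theorem card_good (m : ℕ) (α : Type) [Fintype α] [DecidableEq α] :
    (univ.filter fun b : Fin m → α → ZMod 2 => ∀ z, ∏ j, b j z = 0).card =
      (2 ^ m - 1) ^ Fintype.card α := by
  classical
  have h1 : (univ.filter fun v : Fin m → ZMod 2 => ∏ j, v j = 0).card = 2 ^ m - 1 := by
    have h2 : (univ.filter fun v : Fin m → ZMod 2 => ∏ j, v j = 0) = univ.erase 1 := by
      ext v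
      simp only [Finset.mem_filter, Finset.mem_univ, true_and, Finset.mem_erase, and_true]
      constructor
      · rintro h rfl
        simp at h
      · intro h
        by_contra hne
        apply h
        funext j
        have h3 : v j ≠ 0 := fun h0 => hne (Finset.prod_eq_zero (Finset.mem_univ j) h0)
        have h4 : ∀ a : ZMod 2, a ≠ 0 → a = 1 := by decide
        exact h4 _ h3
    rw [h2, Finset.card_erase_of_mem (Finset.mem_univ _), Finset.card_univ]
    simp
  have h5 : (univ.filter fun b : Fin m → α → ZMod 2 => ∀ z, ∏ j, b j z = 0).card =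
      (Fintype.piFinset fun _ : α => univ.filter fun v : Fin m → ZMod 2 => ∏ j, v j = 0).card := by
    apply Finset.card_bij (fun b _ => fun z j => b j z)
    · intro b hb
      rw [Fintype.mem_piFinset]
      intro z
      rw [Finset.mem_filter] at hb ⊢
      exact ⟨Finset.mem_univ _, hb.2 z⟩
    · intro b _ b' _ h
      funext j z
      exact congrFun (congrFun h z) j
    · intro c hc
      rw [Fintype.mem_piFinset] at hc
      refine ⟨fun j z => c z j, ?_, rfl⟩
      rw [Finset.mem_filter]
      exact ⟨Finset.mem_univ _, fun z => (Finset.mem_filter.1 (hc z)).2⟩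
  rw [h5, Fintype.card_piFinset, Finset.prod_const, h1, Finset.card_univ]

theorem van_iff (hD : DUAStmt) {ι : Type} [Fintype ι] [DecidableEq ι] (k k1 : ℕ)
    (Z : Finset (Pt ι)) (hk : k ≤ k1) (hZ : Z.card < 2 ^ (k + 1)) (g : Fn ι) :
    Van (ind Z * g) k1 ↔ ∀ z ∈ Z, g z = 0 := by
  constructor
  · intro hv
    have h0 : ind Z * g = 0 := by
      by_contra hne
      have h1 := hD ι k1 (ind Z * g) hv hne
      have h2 : (univ.filter fun z => (ind Z * g) z ≠ 0) ⊆ Z := by
        intro z hz
        rw [Finset.mem_filter] at hz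
        by_contra hzZ
        apply hz.2
        show ind Z z * g z = 0
        unfold ind
        rw [if_neg hzZ, zero_mul]
      have h3 := Finset.card_le_card h2
      have h4 : 2 ^ (k + 1) ≤ 2 ^ (k1 + 1) := Nat.pow_le_pow_right (by norm_num) (by omega)
      omega
    intro z hz
    have h1 := congrFun h0 z
    have h2 : ind Z z * g z = 0 := h1
    unfold ind at h2
    rwa [if_pos hz, one_mul] at h2
  · intro h f _
    have h0 : ind Z * g = 0 := by
      funext z
      show ind Z z * g z = 0
      unfold ind
      split_ifs with hz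
      · rw [h z hz, mul_zero]
      · rw [zero_mul]
    rw [h0]
    unfold pr
    simp

/-- the evaluation at the points of `Z` -/
noncomputable def evZ {ι : Type} [Fintype ι] [DecidableEq ι] (m k : ℕ) (Z : Finset (Pt ι)) :
    (Fin m → RM ι k) →+ (Fin m → {z // z ∈ Z} → ZMod 2) where
  toFun q := fun j z => (q j : Fn ι) z
  map_zero' := by
    funext j z
    rfl
  map_add' := by
    intro q q'
    funext j z
    rfl

theorem pve (hD : DUAStmt) (hS : SURStmt) : PVEStmt := by
  intro ι _ _ m k k1 Z hk hZ
  classical
  have hsurj : Function.Surjective (evZ m k Z) := by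
    intro b
    have h1 : ∀ j : Fin m, ∃ f : RM ι k, ∀ z : {z // z ∈ Z}, (f : Fn ι) z = b j z := by
      intro j
      obtain ⟨f, hf, hf'⟩ := hS ι k Z hZ (fun z => if h : z ∈ Z then b j ⟨z, h⟩ else 0)
      refine ⟨⟨f, hf⟩, fun z => ?_⟩
      show f z = b j z
      rw [hf' z z.2, dif_pos z.2]
    choose q hq using h1
    exact ⟨q, funext fun j => funext fun z => hq j z⟩
  have h2 := card_preimage (evZ m k Z) hsurj (fun b => ∀ z, ∏ j, b j z = 0)
  have h3 : (univ.filter fun q : Fin m → RM ι k => Van (ind Z * wp q) k1) =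
      (univ.filter fun q : Fin m → RM ι k => ∀ z, ∏ j, evZ m k Z q j z = 0) := by
    ext q
    simp only [Finset.mem_filter, Finset.mem_univ, true_and]
    rw [van_iff hD k k1 Z hk hZ]
    constructor
    · intro h z
      exact h z z.2
    · intro h z hz
      exact h ⟨z, hz⟩
  rw [card_good] at h2
  unfold pv
  rw [h3]
  have h4 : Fintype.card (Fin m → {z // z ∈ Z} → ZMod 2) = (2 ^ m) ^ Z.card := by
    rw [Fintype.card_fun, Fintype.card_fun, ZMod.card, Fintype.card_coe, Fintype.card_fin,
      ← pow_mul, ← pow_mul, mul_comm]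
  rw [h4, Fintype.card_coe] at h2
  have hG : (Fintype.card (Fin m → RM ι k) : ℝ) ≠ 0 := by
    exact_mod_cast Fintype.card_ne_zero
  have h2m : (2 : ℝ) ^ m ≠ 0 := pow_ne_zero _ two_ne_zero
  rw [div_eq_iff hG]
  have h5 : (((univ.filter fun q : Fin m → RM ι k => ∀ z, ∏ j, evZ m k Z q j z = 0).card : ℕ) : ℝ) *
      (2 ^ m) ^ Z.card = ((2 : ℝ) ^ m - 1) ^ Z.card * (Fintype.card (Fin m → RM ι k) : ℝ) := by
    have h6 : ((2 ^ m - 1 : ℕ) : ℝ) = (2 : ℝ) ^ m - 1 := by
      rw [Nat.cast_sub Nat.one_le_two_pow]
      push_cast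
      ring
    rw [← h6]
    exact_mod_cast h2
  have h7 : (1 - 1 / (2 : ℝ) ^ m) ^ Z.card * (2 ^ m) ^ Z.card = (2 ^ m - 1) ^ Z.card := by
    rw [← mul_pow]
    congr 1
    field_simp
  apply mul_right_cancel₀ (pow_ne_zero Z.card h2m)
  rw [h5, ← h7]
  ring

end Pool.Agent.RHO.H10c
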