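import Pool.Agent.RHO.Stmts3

/-!
# MP_ca8ef3_an, table ca0, row RMC (helper10): composition with an affine map
-/

set_option autoImplicit false

namespace Pool.Agent.RHO.H10c

open Finset Pool.Agent.RHO

theorem rmc (hB : RMBStmt) : RMCStmt := by
  intro ι _ _ s hs d f hf
  obtain ⟨hmono, hmul, -, hone, -, -, -, -⟩ := hB ι
  have key : ∀ A : Finset ι, (fun z : Pt ι => ∏ i ∈ A, s z i) ∈ RM ι A.card := by
    intro A
    induction A using Finset.induction_on with
    | empty =>
      have h : (fun z : Pt ι => ∏ i ∈ (∅ : Finset ι), s z i) = (1 : Fn ι) := by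
        funext z
        rw [Finset.prod_empty]
        rfl
      rw [h]
      exact hone
    | insert a A ha ih =>
      have h : (fun z : Pt ι => ∏ i ∈ insert a A, s z i) =
          (fun z => s z a) * (fun z : Pt ι => ∏ i ∈ A, s z i) := by
        funext z
        rw [Finset.prod_insert ha]
        rfl
      rw [h, Finset.card_insert_of_notMem ha, add_comm]
      exact hmul 1 A.card _ _ (hs a) ih
  unfold RM at hf
  induction hf using Submodule.span_induction with
  | mem g hg =>
    obtain ⟨A, hA, rfl⟩ := hg
    exact hmono _ _ hA (key A)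
  | zero => exact (RM ι d).zero_mem
  | add g h _ _ hg hh => exact (RM ι d).add_mem hg hh
  | smul c g _ hg => exact (RM ι d).smul_mem c hg

end Pool.Agent.RHO.H10c
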